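import Pool.Agent.H96.JCT.Defs

/-!
Statements of the rows.  A row `XXX` is `theorem xxx_thm (h1 : DEP1_S) ... : XXX_S`.
-/

namespace Pool.JCT

open Complex Set Topology Filter

/-- INC. Branches exist and are unique up to a constant.  Existence: replace `f` by
`f ∘ projIcc` (clamp to `[min a b, max a b]`), apply
`Complex.exists_continuousOn_eqOn_exp_comp` with `X = ℝ`, `U = univ` (contractible, hence
simply connected).  Uniqueness: `F - F'` is continuous on the interval with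
`exp (F - F') = 1`, so values in `2 π i ℤ` (`Complex.exp_eq_one_iff`), so constant
(`IsPreconnected`, discrete values; e.g. `(F - F')/(2 π i)` has real part an integer;
intermediate value theorem). -/
def INC_S : Prop := ∀ (f : ℝ → Pl) (a b : ℝ) (p : Pl), Continuous f → Off f a b p →
  (∃ F, Lift f a b p F) ∧ ∀ F, Lift f a b p F → F b - F a = inc f a b p

/-- ADD. Additivity, reversal, exponential.  From INC: take a branch on the interval which
contains `a, b, c` (it is covered by `uIcc a b ∪ uIcc b c`), and restrict it. -/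
def ADD_S : Prop := ∀ (f : ℝ → Pl) (p : Pl), Continuous f →
  (∀ a, f a ≠ p → inc f a a p = 0) ∧
  (∀ a b, Off f a b p → inc f b a p = - inc f a b p) ∧
  (∀ a b c, Off f a b p → Off f b c p → inc f a b p + inc f b c p = inc f a c p) ∧
  (∀ a b, Off f a b p → exp (inc f a b p) = (z (f b) - z p) / (z (f a) - z p))

/-- CTY. Continuity in families.  Clamp both variables (`projIcc`), apply
`Complex.exists_continuousOn_eqOn_exp_comp` with `X = ℝ × ℝ`, `U = univ` to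
`(τ,t) ↦ z (H τ t) - z (P τ)`; by INC the function is `F (τ,b) - F (τ,a)`. -/
def CTY_S : Prop := ∀ (H : ℝ → ℝ → Pl) (P : ℝ → Pl) (a b c d : ℝ),
  Continuous (Function.uncurry H) → Continuous P → (∀ τ ∈ uIcc c d, Off (H τ) a b (P τ)) →
  ContinuousOn (fun τ => inc (H τ) a b (P τ)) (uIcc c d)

/-- CPT. Continuity in the point.  If `|p - x|` is less than the distance `δ` of `x` from the
compact set `f '' uIcc a b`, then `F t + log ((z (f t) - z p) / (z (f t) - z x))` is a branch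
for `p` (the quotient is `1 - w`, `|w| < 1`, in the slit plane); so
`inc f a b p - inc f a b x` is a difference of two such logarithms, which tends to 0. -/
def CPT_S : Prop := ∀ (f : ℝ → Pl) (a b : ℝ) (x : Pl), Continuous f → Off f a b x →
  (∀ᶠ p in 𝓝 x, Off f a b p) ∧ Tendsto (fun p => inc f a b p) (𝓝 x) (𝓝 (inc f a b x))

/-- REP. Change of parameter: `F ∘ φ` is a branch for `g`. -/
def REP_S : Prop := ∀ (f g : ℝ → Pl) (φ : ℝ → ℝ) (a b a' b' : ℝ) (p : Pl), Continuous f →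
  Continuous g → ContinuousOn φ (uIcc a b) → (∀ t ∈ uIcc a b, φ t ∈ uIcc a' b') →
  φ a = a' → φ b = b' → (∀ t ∈ uIcc a b, g t = f (φ t)) → Off f a' b' p →
  inc g a b p = inc f a' b' p

/-- HRE. Homotopy with fixed ends.  By CTY the function `τ ↦ inc (H τ) a b p` is continuous
on `[0,1]`, by ADD its exponential is constant, so it is constant. -/
def HRE_S : Prop := ∀ (H : ℝ → ℝ → Pl) (a b : ℝ) (p : Pl), Continuous (Function.uncurry H) →
  (∀ τ ∈ Icc (0 : ℝ) 1, Off (H τ) a b p) →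
  (∀ τ ∈ Icc (0 : ℝ) 1, H τ a = H 0 a ∧ H τ b = H 0 b) →
  inc (H 0) a b p = inc (H 1) a b p

/-- CLO. Closed curves: integer winding number, and invariance under homotopies of closed
curves (and of the point).  As HRE: here the exponential is 1. -/
def CLO_S : Prop :=
  (∀ (f : ℝ → Pl) (a b : ℝ) (p : Pl), Continuous f → Off f a b p → f a = f b →
    ∃ n : ℤ, inc f a b p = n * tpi) ∧
  (∀ (H : ℝ → ℝ → Pl) (P : ℝ → Pl) (a b : ℝ), Continuous (Function.uncurry H) →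
    Continuous P → (∀ τ ∈ Icc (0 : ℝ) 1, Off (H τ) a b (P τ)) →
    (∀ τ ∈ Icc (0 : ℝ) 1, H τ a = H τ b) →
    inc (H 0) a b (P 0) = inc (H 1) a b (P 1))

/-- PER. `m` turns of a closed curve of period `2π`. -/
def PER_S : Prop := ∀ (g : ℝ → Pl) (p : Pl) (m : ℤ), Continuous g →
  (∀ t, g (t + 2 * Real.pi) = g t) → (∀ t, g t ≠ p) →
  inc g 0 (m * (2 * Real.pi)) p = m * inc g 0 (2 * Real.pi) p

/-- DG1. Let `γ` be a closed curve with winding number `n` around `y`, `F` a branch of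
`log (γ - y)` on `[a,b]` (INC), clamped, `a ≠ b` (for `a = b` both sides are 0).  Then
`H τ t = y + exp ((1-τ) F t + τ n 2πi (t-a)/(b-a))` is a homotopy of closed curves avoiding
`y`; apply CLO to `Ψ ∘ H`; at `τ = 1` use REP with `φ t = n 2π (t-a)/(b-a)` and PER. -/
def DG1_S : Prop := ∀ (Ψ : Pl ≃ₜ Pl) (y : Pl) (γ : ℝ → Pl) (a b : ℝ) (n : ℤ), Continuous γ →
  Off γ a b y → γ a = γ b → inc γ a b y = n * tpi →
  inc (fun t => Ψ (γ t)) a b (Ψ y) =
    n * inc (fun t => Ψ (y + circ 1 t)) 0 (2 * Real.pi) (Ψ y)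

/-- DG2. A homeomorphism of the plane has local degree `1` or `-1`.  Independence of `ε` and
of `p` in the disc: CLO with `H τ t = Ψ (circ ((1-τ) ε + τ) t)`, `P τ = Ψ ((1-τ) p)`.
`D = ±1`: apply DG1 with `y = 0` and `γ t = Ψ.symm (Ψ 0 + circ 1 t)`: the left side is the
winding number of the circle, `tpi` (branch `i t`), so `1 = n * D`. -/
def DG2_S : Prop := ∀ (Ψ : Pl ≃ₜ Pl), ∃ D : ℤ, (D = 1 ∨ D = -1) ∧
  ∀ ε : ℝ, 0 < ε → ∀ p : Pl, Disc ε p →
    inc (fun t => Ψ (circ ε t)) 0 (2 * Real.pi) (Ψ p) = D * tpi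

/-- SEG. Seen from a point above, the segment can be deformed into the lower half circle,
from a point below into the upper one.  REP with `φ t = -(ε cos t)`, then HRE with
`H τ t = Ψ (-(ε cos t), -(τ ε sin t))` (second coordinate `≤ 0`, for `τ, t` in the range;
`H` is continuous everywhere). -/
def SEG_S : Prop := ∀ (Ψ : Pl ≃ₜ Pl) (ε : ℝ) (p : Pl), 0 < ε → Disc ε p →
  (0 < p.2 → inc (fun t => Ψ (t, 0)) (-ε) ε (Ψ p) =
    inc (fun t => Ψ (low ε t)) 0 Real.pi (Ψ p)) ∧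
  (p.2 < 0 → inc (fun t => Ψ (t, 0)) (-ε) ε (Ψ p) =
    inc (fun t => Ψ (upp ε t)) 0 Real.pi (Ψ p))

/-- CIR. The circle is the lower half circle followed by the reversed upper one.  ADD and REP
(`φ t = π - t`, `φ t = t - π`). -/
def CIR_S : Prop := ∀ (Ψ : Pl ≃ₜ Pl) (ε : ℝ) (p : Pl), 0 < ε → Disc ε p →
  inc (fun t => Ψ (low ε t)) 0 Real.pi (Ψ p) - inc (fun t => Ψ (upp ε t)) 0 Real.pi (Ψ p) =
    inc (fun t => Ψ (circ ε t)) 0 (2 * Real.pi) (Ψ p)

/-- JMP. The jump across the segment.  From DG2, SEG, CIR. -/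
def JMP_S : Prop := ∀ (Ψ : Pl ≃ₜ Pl), ∃ D : ℤ, (D = 1 ∨ D = -1) ∧
  ∀ ε : ℝ, 0 < ε → ∀ p q : Pl, Disc ε p → Disc ε q → 0 < p.2 → q.2 < 0 →
    inc (fun t => Ψ (t, 0)) (-ε) ε (Ψ p) - inc (fun t => Ψ (t, 0)) (-ε) ε (Ψ q) =
      D * tpi + (inc (fun t => Ψ (upp ε t)) 0 Real.pi (Ψ p) -
        inc (fun t => Ψ (upp ε t)) 0 Real.pi (Ψ q))

/-- MON. Near an interior time the coordinate along the axis is strictly monotone.  It is
continuous and injective on a small interval around `s` (there the other coordinate is 0);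
`Continuous.strictMono_of_inj` / `ContinuousOn.strictMonoOn_of_injOn_Icc'`. -/
def MON_S : Prop := ∀ (Φ : Pl ≃ₜ Pl) (U : Set Pl) (f : ℝ → Pl) (s : ℝ), IsOpen U →
  Continuous f → InjOn f (Icc 0 1) → s ∈ Ioo (0 : ℝ) 1 → f s ∈ U →
  (∀ q ∈ U, q ∈ f '' Icc 0 1 → (Φ q).2 = 0) →
  ∃ δ : ℝ, 0 < δ ∧ Icc (s - δ) (s + δ) ⊆ Icc 0 1 ∧ (∀ t ∈ Icc (s - δ) (s + δ), f t ∈ U) ∧
    (StrictMonoOn (fun t => (Φ (f t)).1) (Icc (s - δ) (s + δ)) ∨
      StrictAntiOn (fun t => (Φ (f t)).1) (Icc (s - δ) (s + δ)))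

/-- SID. A curve on the vertical axis changes the side.  MON for `Φ.trans` the exchange of the
coordinates (`Homeomorph.prodComm`). -/
def SID_S : Prop := ∀ (Φ : Pl ≃ₜ Pl) (U : Set Pl) (h : ℝ → Pl) (r : ℝ), IsOpen U →
  Continuous h → InjOn h (Icc 0 1) → r ∈ Ioo (0 : ℝ) 1 → h r ∈ U → Φ (h r) = (0, 0) →
  (∀ q ∈ U, q ∈ h '' Icc 0 1 → (Φ q).1 = 0) →
  ∃ δ : ℝ, 0 < δ ∧
    ((∀ t, r - δ < t → t < r → (Φ (h t)).2 < 0) ∧ (∀ t, r < t → t < r + δ → 0 < (Φ (h t)).2) ∨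
     (∀ t, r - δ < t → t < r → 0 < (Φ (h t)).2) ∧ (∀ t, r < t → t < r + δ → (Φ (h t)).2 < 0))

/-- SEL. Choice of a short part of the piece around `s`, here for `a < b`.  `δ` from MON;
make it smaller so that `[s-δ, s+δ] ⊆ (a,b)` (a sub-interval keeps monotonicity);
`ε = min |(Φ (f (s-δ))).1| |(Φ (f (s+δ))).1| > 0`; `s₁`, `s₂` by the intermediate value
theorem; the second coordinate is 0 because `f t ∈ U`. -/
def SEL_S : Prop := ∀ (Φ : Pl ≃ₜ Pl) (U : Set Pl) (f : ℝ → Pl) (a b s : ℝ), IsOpen U →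
  Continuous f → InjOn f (Icc 0 1) → Icc a b ⊆ Icc 0 1 → a < s → s < b → f s ∈ U →
  Φ (f s) = (0, 0) → (∀ q ∈ U, q ∈ f '' Icc 0 1 → (Φ q).2 = 0) →
  ∃ ε s₁ s₂ : ℝ, 0 < ε ∧ a < s₁ ∧ s₁ < s ∧ s < s₂ ∧ s₂ < b ∧
    (∀ t ∈ Icc s₁ s₂, (Φ (f t)).2 = 0 ∧ (Φ (f t)).1 ∈ Icc (-ε) ε) ∧
    ((Φ (f s₁)).1 = -ε ∧ (Φ (f s₂)).1 = ε ∨ (Φ (f s₁)).1 = ε ∧ (Φ (f s₂)).1 = -ε)

/-- FLA. The jump of `inc f a b` at an interior point `x = f s` of the piece, for `a < b`.
`ε, s₁, s₂` from SEL, `Ψ = Φ.symm`.  On `[s₁,s₂]` one has `f t = Ψ (X t, 0)` with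
`X t = (Φ (f t)).1`, so by REP (and ADD reversal) `inc f s₁ s₂ p = ± inc (Ψ (·,0)) (-ε) ε p`
for `(Φ p).2 ≠ 0`; its jump is given by JMP, applied to `Φ p`, `Φ q` in the disc of radius
`ε` (for `p, q` near `x`).  The parts on `[a,s₁]`, `[s₂,b]` and the upper half circle
`t ↦ Ψ (upp ε t)` on `[0,π]` do not contain `x` (injectivity): CPT, so their increments at
`p` and `q` differ by less than `η/3`.  `p` is off `f` on `[a,b]`: on `[s₁,s₂]` since the
second coordinate is 0 there, elsewhere by CPT. -/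
def FLA_S : Prop := ∀ (Φ : Pl ≃ₜ Pl) (U : Set Pl) (f : ℝ → Pl) (a b s : ℝ), IsOpen U →
  Continuous f → InjOn f (Icc 0 1) → Icc a b ⊆ Icc 0 1 → a < s → s < b → f s ∈ U →
  Φ (f s) = (0, 0) → (∀ q ∈ U, q ∈ f '' Icc 0 1 → (Φ q).2 = 0) →
  ∃ D : ℤ, (D = 1 ∨ D = -1) ∧ ∀ η : ℝ, 0 < η → ∃ N ∈ 𝓝 (f s), ∀ p ∈ N, ∀ q ∈ N,
    0 < (Φ p).2 → (Φ q).2 < 0 →
    Off f a b p ∧ Off f a b q ∧ ‖inc f a b p - inc f a b q - D * tpi‖ < η

/-- FL1. The same without `a < b` (if `b < a`: ADD, reversal; `D` becomes `-D`;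
`uIcc a b = uIcc b a`, `Off` is symmetric). -/
def FL1_S : Prop := ∀ (Φ : Pl ≃ₜ Pl) (U : Set Pl) (f : ℝ → Pl) (a b s : ℝ), IsOpen U →
  Continuous f → InjOn f (Icc 0 1) → uIcc a b ⊆ Icc 0 1 → SBtw a b s → f s ∈ U →
  Φ (f s) = (0, 0) → (∀ q ∈ U, q ∈ f '' Icc 0 1 → (Φ q).2 = 0) →
  ∃ D : ℤ, (D = 1 ∨ D = -1) ∧ ∀ η : ℝ, 0 < η → ∃ N ∈ 𝓝 (f s), ∀ p ∈ N, ∀ q ∈ N,
    0 < (Φ p).2 → (Φ q).2 < 0 →
    Off f a b p ∧ Off f a b q ∧ ‖inc f a b p - inc f a b q - D * tpi‖ < η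

/-- WIN. The total change along a closed walk is a multiple of `2πi`: its exponential is a
telescoping product (ADD). -/
def WIN_S : Prop := ∀ (k : ℕ) (f : ℕ → ℝ → Pl) (a b : ℕ → ℝ) (p : Pl), Walk k f a b →
  (∀ i < k, Off (f i) (a i) (b i) p) → ∃ n : ℤ, W k f a b p = n * tpi

/-- LCO. Along a curve `h`, the total change is constant near a time at which `h` is off the
walk (CPT: continuous; WIN: values in `2πiℤ`). -/
def LCO_S : Prop := ∀ (k : ℕ) (f : ℕ → ℝ → Pl) (a b : ℕ → ℝ) (h : ℝ → Pl) (r : ℝ),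
  Walk k f a b → Continuous h → (∀ i < k, Off (f i) (a i) (b i) (h r)) →
  ∃ δ : ℝ, 0 < δ ∧ ∀ t, |t - r| < δ → (∀ i < k, Off (f i) (a i) (b i) (h t)) ∧
    W k f a b (h t) = W k f a b (h r)

/-- LFL. At a time `r` at which `h` meets some pieces of the walk, the total change jumps by a
multiple of `2πi` with the parity of the number of these pieces.  `C i = 1` if the piece `i`
passes through `h r` (then it crosses `h` properly at an interior time), `C i = 0` if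
`h r` is off the piece.  FL1 for the pieces with `C i = 1` (each with its own `Φ`, `U`, and
SID for the sides; if the sides are exchanged the sign changes), CPT for the others; the sum
of the errors is small, and WIN. -/
def LFL_S : Prop := ∀ (k : ℕ) (f : ℕ → ℝ → Pl) (a b : ℕ → ℝ) (h : ℝ → Pl) (r : ℝ)
  (C : ℕ → ℕ), Walk k f a b → Continuous h → InjOn h (Icc 0 1) → r ∈ Ioo (0 : ℝ) 1 →
  (∀ i < k, (C i = 0 ∧ Off (f i) (a i) (b i) (h r)) ∨
    (C i = 1 ∧ ∃ s, SBtw (a i) (b i) s ∧ f i s = h r ∧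
      Pool.MCR.ProperCrossing (f i '' Icc 0 1) (h '' Icc 0 1) (h r))) →
  ∃ δ : ℝ, 0 < δ ∧ ∀ t u, r - δ < t → t < r → r < u → u < r + δ →
    (∀ i < k, Off (f i) (a i) (b i) (h t)) ∧ (∀ i < k, Off (f i) (a i) (b i) (h u)) ∧
    ∃ n : ℤ, W k f a b (h u) - W k f a b (h t) = n * tpi ∧
      Even (n - ((∑ i ∈ Finset.range k, C i : ℕ) : ℤ))

/-- IND. A function which is constant near every point of `[c,d]`, apart from a finite set of
exceptional arguments, has equal values at the ends.  Supremum argument: let `x` be the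
supremum of the `x ∈ [c,d]` such that `g t = g c` for all `t ∈ [c,x]`, `t ∉ T`; there are
`t ∉ T` close to `x` on the left (`T` finite, or `x = c ∉ T`). -/
def IND_S : Prop := ∀ (c d : ℝ) (T : Set ℝ) (g : ℝ → ZMod 2), c ≤ d → T.Finite → c ∉ T →
  d ∉ T → (∀ r ∈ Icc c d, ∃ δ : ℝ, 0 < δ ∧ ∀ t ∈ Icc c d, ∀ u ∈ Icc c d, |t - r| < δ →
    |u - r| < δ → t ∉ T → u ∉ T → g t = g u) → g c = g d

/-- ARC. Along a piece `h` from `c` to `d` the winding number changes by the number of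
crossings, modulo 2.  May assume `c ≤ d` (exchange `c`, `d`: `n` becomes `-n`).  Let `r i` be
the crossing time of `i` (if `C i = 1`), `T` the set of these, for `t ∉ T` in `[c,d]` let
`m t` be the integer with `W (h t) = m t * tpi` (WIN), and
`g t = m t + #{i < k | C i = 1, r i < t}` in `ZMod 2`; IND, with LCO (`r ∉ T`) and LFL
(`r ∈ T`, with `C' i = 1` iff `C i = 1` and `r i = r`; on one side of `r`: compare both with a
point of the other side). -/
def ARC_S : Prop := ∀ (k : ℕ) (f : ℕ → ℝ → Pl) (a b : ℕ → ℝ) (h : ℝ → Pl) (c d : ℝ)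
  (C : ℕ → ℕ), Walk k f a b → Continuous h → InjOn h (Icc 0 1) → uIcc c d ⊆ Icc 0 1 →
  (∀ i < k, (C i = 0 ∧ Sep (f i) (a i) (b i) h c d) ∨
    (C i = 1 ∧ One (f i) (a i) (b i) h c d)) →
  ∃ n : ℤ, W k f a b (h d) - W k f a b (h c) = n * tpi ∧
    Even (n - ((∑ i ∈ Finset.range k, C i : ℕ) : ℤ))

/-- PAR. Two closed walks cross evenly: sum of ARC over the pieces of the second walk; the
differences telescope. -/
def PAR_S : Prop := ∀ (k : ℕ) (f : ℕ → ℝ → Pl) (a b : ℕ → ℝ) (l : ℕ) (h : ℕ → ℝ → Pl)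
  (c d : ℕ → ℝ) (C : ℕ → ℕ → ℕ), Walk k f a b → Walk l h c d →
  (∀ i < k, ∀ j < l, (C i j = 0 ∧ Sep (f i) (a i) (b i) (h j) (c j) (d j)) ∨
    (C i j = 1 ∧ One (f i) (a i) (b i) (h j) (c j) (d j))) →
  Even (∑ i ∈ Finset.range k, ∑ j ∈ Finset.range l, C i j)

end Pool.JCT
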