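import Mathlib
import Pool.Agent.H88.MCR.Defs

/-!
Parity of the number of crossings of two closed curves in the plane (for MP_ffb5eb_co).
`inc f a b p` is the change of a continuous logarithm of `f - p` from `a` to `b`.
-/

namespace Pool.JCT

open Complex Set

/-- The plane. -/
abbrev Pl := ℝ × ℝ

/-- The plane as the complex numbers. -/
def z (p : Pl) : ℂ := ⟨p.1, p.2⟩

/-- `F` is a continuous branch of the logarithm of `f - p` between `a` and `b`. -/
def Lift (f : ℝ → Pl) (a b : ℝ) (p : Pl) (F : ℝ → ℂ) : Prop :=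
  ContinuousOn F (uIcc a b) ∧ ∀ t ∈ uIcc a b, exp (F t) = z (f t) - z p

open Classical in
/-- Change of the logarithm of `f - p` from `a` to `b` (0 if there is no branch). -/
noncomputable def inc (f : ℝ → Pl) (a b : ℝ) (p : Pl) : ℂ :=
  if h : ∃ F, Lift f a b p F then h.choose b - h.choose a else 0

/-- `f` avoids `p` between `a` and `b`. -/
def Off (f : ℝ → Pl) (a b : ℝ) (p : Pl) : Prop := ∀ t ∈ uIcc a b, f t ≠ p

/-- `2 π i`. -/
noncomputable def tpi : ℂ := 2 * (Real.pi : ℂ) * I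

/-- The circle of radius `ε`. -/
noncomputable def circ (ε : ℝ) (t : ℝ) : Pl := (ε * Real.cos t, ε * Real.sin t)

/-- The upper half circle from `(-ε,0)` to `(ε,0)`, `t` from `0` to `π`. -/
noncomputable def upp (ε : ℝ) (t : ℝ) : Pl := (-(ε * Real.cos t), ε * Real.sin t)

/-- The lower half circle from `(-ε,0)` to `(ε,0)`, `t` from `0` to `π`. -/
noncomputable def low (ε : ℝ) (t : ℝ) : Pl := (-(ε * Real.cos t), -(ε * Real.sin t))

/-- The open disc of radius `ε`. -/
def Disc (ε : ℝ) (p : Pl) : Prop := p.1 ^ 2 + p.2 ^ 2 < ε ^ 2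

/-- `s` is strictly between `a` and `b`. -/
def SBtw (a b s : ℝ) : Prop := (a < s ∧ s < b) ∨ (b < s ∧ s < a)

/-- The pieces `f` on `[a,b]` and `h` on `[c,d]` are disjoint. -/
def Sep (f : ℝ → Pl) (a b : ℝ) (h : ℝ → Pl) (c d : ℝ) : Prop :=
  ∀ t ∈ uIcc a b, ∀ r ∈ uIcc c d, f t ≠ h r

/-- The pieces `f` on `[a,b]` and `h` on `[c,d]` have exactly one common point, which is
interior to both and a proper crossing. -/
def One (f : ℝ → Pl) (a b : ℝ) (h : ℝ → Pl) (c d : ℝ) : Prop :=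
  ∃ s r, SBtw a b s ∧ SBtw c d r ∧ f s = h r ∧
    Pool.MCR.ProperCrossing (f '' Icc 0 1) (h '' Icc 0 1) (h r) ∧
    ∀ t ∈ uIcc a b, ∀ r' ∈ uIcc c d, f t = h r' → t = s ∧ r' = r

/-- A closed walk of `k` pieces `f i` from `a i` to `b i`, each a part of an injective curve
with parameter in `[0,1]`. -/
structure Walk (k : ℕ) (f : ℕ → ℝ → Pl) (a b : ℕ → ℝ) : Prop where
  pos : 0 < k
  cont : ∀ i < k, Continuous (f i)
  inj : ∀ i < k, InjOn (f i) (Icc 0 1)
  sub : ∀ i < k, uIcc (a i) (b i) ⊆ Icc 0 1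
  join : ∀ i < k, f i (b i) = f ((i + 1) % k) (a ((i + 1) % k))

/-- The total change of the logarithm. -/
noncomputable def W (k : ℕ) (f : ℕ → ℝ → Pl) (a b : ℕ → ℝ) (p : Pl) : ℂ :=
  ∑ i ∈ Finset.range k, inc (f i) (a i) (b i) p

end Pool.JCT
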